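import Mathlib
import Pool.Agent.Helper85.CoverFinal

set_option autoImplicit false

namespace Pool.Agent.Results.MP_c155e6_ag.AbelianCover

/-- Let `A = P / I` be a domain which is a finite abelian cover of the smooth germ with ring
`S = ℂ[[x₁, …, xₘ]]`: it has an `S`-basis `z χ` indexed by a finite abelian group `Γ` (the
characters of the covering group) with `z 0 = 1` and `z χ * z ψ = c χ ψ * z (χ + ψ)`.
Let `p i` be pairwise non-associated primes of `S`, each dividing one of the `c χ ψ` (components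
of the branch divisor).  If the gradients of the `p i` at the origin are linearly dependent, then
`A` is not rigid: not every `P`-linear map `I → A` is the restriction of a derivation. -/
theorem result {n m r : ℕ} {Γ : Type} [AddCommGroup Γ] [Fintype Γ]
    (I : Ideal (MvPowerSeries (Fin n) ℂ)) (hA : IsDomain (MvPowerSeries (Fin n) ℂ ⧸ I))
    (ι : MvPowerSeries (Fin m) ℂ →ₐ[ℂ] (MvPowerSeries (Fin n) ℂ ⧸ I))
    (z : Γ → MvPowerSeries (Fin n) ℂ ⧸ I) (hz0 : z 0 = 1)
    (hbasis : ∀ a, ∃! s : Γ → MvPowerSeries (Fin m) ℂ, a = ∑ χ, ι (s χ) * z χ)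
    (c : Γ → Γ → MvPowerSeries (Fin m) ℂ)
    (hmul : ∀ χ ψ, z χ * z ψ = ι (c χ ψ) * z (χ + ψ))
    (p : Fin r → MvPowerSeries (Fin m) ℂ) (hp : ∀ i, Prime (p i))
    (hpp : ∀ i j, i ≠ j → ¬ Associated (p i) (p j))
    (hbranch : ∀ i, ∃ χ ψ, p i ∣ c χ ψ)
    (hgrad : ¬ LinearIndependent ℂ
      (fun i => fun k : Fin m => MvPowerSeries.coeff (Finsupp.single k 1) (p i))) :
    ¬ ∀ φ : I →ₗ[MvPowerSeries (Fin n) ℂ] (MvPowerSeries (Fin n) ℂ ⧸ I),
        ∃ D : Derivation ℂ (MvPowerSeries (Fin n) ℂ) (MvPowerSeries (Fin n) ℂ ⧸ I),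
          ∀ x : I, D (x : MvPowerSeries (Fin n) ℂ) = φ x :=
  fun hrig => hgrad (Pool.Agent.Helper85.linearIndependent_of_rigid I hrig ι z hz0 hbasis c hmul
    p hp hpp hbranch)

end Pool.Agent.Results.MP_c155e6_ag.AbelianCover
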