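import Mathlib
import Pool.Agent.Helper85.RIG.Main

set_option autoImplicit false

namespace Pool.Agent.Results.MP_c155e6_ag.RigidSmooth

/-- Let `A = P / I` be a normal domain of dimension two, `P = ℂ[[z₁, …, zₙ]]`, which is rigid: every
`P`-linear map `I → A` is the restriction of a `ℂ`-derivation `P → A` (that is, `T¹(A) = 0`).
Then `A` is isomorphic to `ℂ[[x, y]]`. Hence no normal surface singularity is rigid. -/
theorem result {n : ℕ} (I : Ideal (MvPowerSeries (Fin n) ℂ))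
    (hdom : IsDomain (MvPowerSeries (Fin n) ℂ ⧸ I))
    (hnormal : IsIntegrallyClosed (MvPowerSeries (Fin n) ℂ ⧸ I))
    (hdim : ringKrullDim (MvPowerSeries (Fin n) ℂ ⧸ I) = 2)
    (hrigid : ∀ φ : I →ₗ[MvPowerSeries (Fin n) ℂ] (MvPowerSeries (Fin n) ℂ ⧸ I),
        ∃ D : Derivation ℂ (MvPowerSeries (Fin n) ℂ) (MvPowerSeries (Fin n) ℂ ⧸ I),
          ∀ x : I, D (x : MvPowerSeries (Fin n) ℂ) = φ x) :
    Nonempty ((MvPowerSeries (Fin n) ℂ ⧸ I) ≃ₐ[ℂ] MvPowerSeries (Fin 2) ℂ) :=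
  Pool.Agent.Helper85.RIG.rigid_imp_smooth I hdim hrigid

end Pool.Agent.Results.MP_c155e6_ag.RigidSmooth
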